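import Mathlib
import Pool.Agent.H53.ZF.Pcs

set_option autoImplicit false
open Finset

/-! # T6: the far strand is unique

Without four arms between `BB (2 t)` and `BB (r / 2)` the strand of a corner at the origin which leaves
`BB (r / 2)` is the strand of `Dgood`: it enters `[-2L,r] × [-2L,2L]` at the height `t2` and leaves it at
the height `t1`. -/

namespace Pool.Agent.H93.ZF

open Pool.Agent.H75.Perc Pool.Agent.H75.TwoArm Pool.Agent.Q1 Pool.Agent.H47.NC Pool.Agent.H53.ZF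
open Pool.Agent.H99.NC Pool.Agent.Q1.M6c Pool.Agent.H65.Four2

lemma BB_eq (r : ℤ) : BB r = Bq (0, 0) r := by
  ext l
  unfold H75.TwoArm.BB
  rw [mem_Bx, mem_Bq]
  simp only [zero_sub, zero_add]

lemma nx_iter_pv (w : Finset (ℤ × ℤ)) (z : ℤ × ℤ) : ∀ j i : ℕ, i ≤ j →
    (nx w)^[i] ((pv w)^[j] z) = (pv w)^[j - i] z := by
  intro j i
  induction i with
  | zero => intro _; rfl
  | succ i ih =>
    intro h
    rw [Function.iterate_succ_apply', ih (by omega),
      show j - i = (j - (i + 1)) + 1 by omega, Function.iterate_succ_apply', nx_pv]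

lemma pv_iter_nx (w : Finset (ℤ × ℤ)) (z : ℤ × ℤ) : ∀ j i : ℕ, i ≤ j →
    (pv w)^[i] ((nx w)^[j] z) = (nx w)^[j - i] z := by
  intro j i
  induction i with
  | zero => intro _; rfl
  | succ i ih =>
    intro h
    rw [Function.iterate_succ_apply', ih (by omega),
      show j - i = (j - (i + 1)) + 1 by omega, Function.iterate_succ_apply', pv_nx]

/-- a strand from outside of `Out` to `In` has a last entrance -/
lemma farIn_of_path {In Out w : Finset (ℤ × ℤ)} {c : ℤ × ℤ} {n : ℕ} (hc : plab c ∉ Out)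
    (hz : lab ((nx w)^[n] c) ∈ In) (h : ∀ i < n, lab ((nx w)^[i] c) ∉ In) :
    Pool.Agent.Q1.M6b.Gd.FarIn In Out w ((nx w)^[n] c) := by
  classical
  set P : ℕ → Prop := fun i => plab ((nx w)^[i] c) ∉ Out with hP
  have hm : P (Nat.findGreatest P n) := Nat.findGreatest_spec (P := P) (Nat.zero_le n) hc
  set m := Nat.findGreatest P n with hmd
  have hmn : m ≤ n := Nat.findGreatest_le n
  refine ⟨hz, (nx w)^[m] c, n - m, hm, ?_, ?_⟩
  · rw [← Function.iterate_add_apply, show n - m + m = n by omega]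
  · intro i hi
    rw [← Function.iterate_add_apply, mem_sdiff]
    refine ⟨?_, h _ (by omega)⟩
    by_contra hcon
    have h1 : P (i + m + 1) := by
      rw [hP]
      simp only
      rw [Function.iterate_succ_apply', plab_nx]
      exact hcon
    exact Nat.findGreatest_is_greatest (P := P) (k := i + m + 1) (n := n) (by omega) (by omega) h1

/-- the strand which leads to `z` inside of `Out` comes from an entrance -/
lemma farIn_before {In Out w : Finset (ℤ × ℤ)} (hIO : In ⊆ Out) {z : ℤ × ℤ} {j : ℕ}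
    (hj : plab ((pv w)^[j] z) ∉ Out) (hz : lab z ∈ In ∨ plab z ∈ In) :
    ∃ (z' : ℤ × ℤ) (m : ℕ), Pool.Agent.Q1.M6b.Gd.FarIn In Out w z' ∧ (nx w)^[m] z' = z ∧
      ∀ i < m, lab ((nx w)^[i] z') ∈ Out := by
  classical
  have hex : ∃ j, plab ((pv w)^[j] z) ∉ Out := ⟨j, hj⟩
  set J := Nat.find hex with hJ
  have hJ1 : plab ((pv w)^[J] z) ∉ Out := Nat.find_spec hex
  have hJ2 : ∀ i < J, plab ((pv w)^[i] z) ∈ Out := fun i hi => not_not.1 (Nat.find_min hex hi)
  set c := (pv w)^[J] z with hc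
  have hcz : (nx w)^[J] c = z := by
    rw [hc, nx_iter_pv w z J J le_rfl, Nat.sub_self]; rfl
  have hlab : ∀ i < J, lab ((nx w)^[i] c) ∈ Out := by
    intro i hi
    have h1 : lab ((nx w)^[i] c) = plab ((pv w)^[J - (i + 1)] z) := by
      rw [← plab_nx w, ← Function.iterate_succ_apply' (nx w), hc, nx_iter_pv w z J (i + 1) (by omega)]
    rw [h1]
    exact hJ2 _ (by omega)
  -- first label in `In`
  have hex2 : ∃ i, i ≤ J ∧ lab ((nx w)^[i] c) ∈ In := by
    rcases hz with h | h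
    · exact ⟨J, le_rfl, by rw [hcz]; exact h⟩
    · rcases Nat.eq_zero_or_pos J with h0 | h0
      · exfalso
        rw [h0] at hc
        rw [hc] at hJ1
        exact hJ1 (hIO h)
      · refine ⟨J - 1, by omega, ?_⟩
        rw [← plab_nx w, ← Function.iterate_succ_apply' (nx w), Nat.succ_eq_add_one,
          show J - 1 + 1 = J by omega, hcz]
        exact h
  set m := Nat.find hex2 with hm
  obtain ⟨hm1, hm2⟩ := Nat.find_spec hex2
  have hm3 : ∀ i < m, lab ((nx w)^[i] c) ∉ In := fun i hi h =>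
    Nat.find_min hex2 hi ⟨by omega, h⟩
  refine ⟨(nx w)^[m] c, J - m, farIn_of_path hJ1 hm2 hm3, ?_, ?_⟩
  · rw [← Function.iterate_add_apply, show J - m + m = J by omega]; exact hcz
  · intro i hi
    rw [← Function.iterate_add_apply]
    exact hlab _ (by omega)

/-- **T6** -/
theorem t6 : T6 := by
  intro M1 k Mh t s r L R u hM1 hp w c t1 t2 hc0 hD hL
  have ht := hp.t1
  -- sizes
  have hs : t ≤ s := by
    rw [hp.hs]
    have : (1 : ℤ) ≤ M1 := by exact_mod_cast hM1
    nlinarith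
  have h4 : (1 : ℤ) ≤ 4 ^ k := one_le_pow₀ (by norm_num)
  have hr16 : 16 * t ≤ r := by
    rw [hp.hr]; nlinarith
  have hrL : r ≤ L := by
    rw [hp.hL]; nlinarith
  set A := BB (2 * t) with hA
  set B := BB (r / 2) with hB
  set Q := BE r (2 * L) with hQ
  have hAB : A ⊆ B := by
    intro l hl
    rw [hA] at hl
    rw [hB]
    unfold H75.TwoArm.BB at hl ⊢
    rw [mem_Bx] at hl ⊢
    omega
  have hBQ : B ⊆ Q := by
    intro l hl
    rw [hB] at hl
    rw [hQ]
    unfold H75.TwoArm.BB at hl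
    unfold H75.TwoArm.BE
    rw [mem_Bx] at hl ⊢
    omega
  obtain ⟨n, hn1, hn2⟩ := hD.fwd
  obtain ⟨m, hm1, hm2⟩ := hD.bwd
  set x2 : ℤ × ℤ := (2 * r + 1, 2 * t2 + 1) with hx2
  set x1 : ℤ × ℤ := (2 * r + 1, 2 * t1) with hx1
  set z1 := (pv w)^[m] x1 with hz1
  have hp2 : plab x2 ∉ Q := by
    rw [hx2, hQ]
    unfold plab H75.TwoArm.BE
    rw [mem_Bx]
    split_ifs with h1 h2 h2 <;> simp only at h1 h2 ⊢ <;> omega
  have hl1 : lab x1 ∉ Q := by
    rw [hx1, hQ]
    unfold lab H75.TwoArm.BE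
    rw [mem_Bx]
    split_ifs with h1 h2 h2 <;> simp only at h1 h2 ⊢ <;> omega
  -- uniqueness
  have huni : ∀ z z', Pool.Agent.Q1.M6b.Gd.FarIn A B w z → Pool.Agent.Q1.M6b.Gd.FarIn A B w z' →
      z = z' := by
    intro z z' h h'
    rw [hA, hB, BB_eq, BB_eq] at h h'
    refine Pool.Agent.H65.G1.far_unique (x := (0, 0)) (a := 2 * t) (b := r / 2) (E := BB (r / 2))
      (by omega) (by omega) ?_ hD.four hD.fourd h h'
    rw [BB_eq]
  -- the entrance of the forward strand from `x2`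
  have hF2 : Pool.Agent.Q1.M6b.Gd.FarIn A B w ((nx w)^[n] x2) := by
    refine farIn_of_path (fun h => hp2 (hBQ h)) hn1 ?_
    intro i hi h
    exact (mem_sdiff.1 (hn2 i hi)).2 h
  set z2 := (nx w)^[n] x2 with hz2
  -- the strand of `c`
  have hlc : lab c ∈ A := by
    rw [hA]; unfold H75.TwoArm.BB
    exact (ExitAux.lab_mem_of_C0 (by omega) (by omega) (by omega) (by omega) hc0).1
  obtain ⟨j0, hj0⟩ := hL
  obtain ⟨mc, hmc1, hmc2⟩ : ∃ mc : ℕ, (nx w)^[mc] z2 = c ∧ ∀ i < mc, lab ((nx w)^[i] z2) ∈ B := by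
    obtain ⟨j, hj⟩ := ExitAux.nx_eq_pv w c (j0 + 1)
    have h1 : plab ((pv w)^[j] c) ∉ B := by
      rw [← hj, Function.iterate_succ_apply', plab_nx]
      exact hj0
    obtain ⟨z', m', h2, h3, h4⟩ := farIn_before hAB h1 (Or.inl hlc)
    have h5 := huni z' z2 h2 hF2
    subst h5
    exact ⟨m', h3, h4⟩
  -- the strand of `z1`
  have hz1x : (nx w)^[m] z1 = x1 := by
    rw [hz1, nx_iter_pv w x1 m m le_rfl, Nat.sub_self]; rfl
  have hz1l : ∀ i < m, lab ((nx w)^[i] z1) ∈ Q := by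
    intro i hi
    have h1 : lab ((nx w)^[i] z1) = plab ((pv w)^[m - (i + 1)] x1) := by
      rw [← plab_nx w, ← Function.iterate_succ_apply' (nx w), hz1, nx_iter_pv w x1 m (i + 1) (by omega)]
    rw [h1]
    exact (mem_sdiff.1 (hm2 _ (by omega))).1
  obtain ⟨m1, hm11, hm12⟩ : ∃ m1 : ℕ, (nx w)^[m1] z2 = z1 ∧ ∀ i < m1, lab ((nx w)^[i] z2) ∈ B := by
    obtain ⟨j, hj⟩ := ExitAux.nx_eq_pv w z1 (m + 1)
    have h1 : plab ((pv w)^[j] z1) ∉ B := by
      rw [← hj, Function.iterate_succ_apply', plab_nx, hz1x]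
      exact fun h => hl1 (hBQ h)
    obtain ⟨z', m', h2, h3, h4⟩ := farIn_before hAB h1 (Or.inr hm1)
    have h5 := huni z' z2 h2 hF2
    subst h5
    exact ⟨m', h3, h4⟩
  -- from `z2` to `x1`
  have hz2x1 : (nx w)^[m + m1] z2 = x1 := by
    rw [Function.iterate_add_apply, hm11, hz1x]
  have hz2l : ∀ i < m + m1, lab ((nx w)^[i] z2) ∈ Q := by
    intro i hi
    by_cases h : i < m1
    · exact hBQ (hm12 i h)
    · have h1 : (nx w)^[i] z2 = (nx w)^[i - m1] z1 := by
        have h2 : (nx w)^[i - m1 + m1] z2 = (nx w)^[i - m1] z1 := by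
          rw [Function.iterate_add_apply, hm11]
        rwa [show i - m1 + m1 = i by omega] at h2
      rw [h1]
      exact hz1l _ (by omega)
  have hle : mc ≤ m + m1 := by
    by_contra hcon
    have h1 := hmc2 (m + m1) (by omega)
    rw [hz2x1] at h1
    exact hl1 (hBQ h1)
  refine ⟨⟨m + m1 - mc, ?_, hl1, ?_⟩, ⟨n + mc, ?_, hp2, ?_⟩⟩
  · rw [← hmc1, ← Function.iterate_add_apply, show m + m1 - mc + mc = m + m1 by omega]
    exact hz2x1
  · intro i hi
    rw [← hmc1, ← Function.iterate_add_apply]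
    exact hz2l _ (by omega)
  · have h1 : c = (nx w)^[n + mc] x2 := by
      rw [← hmc1, hz2, ← Function.iterate_add_apply, add_comm n mc]
    rw [h1, pv_iter_nx w x2 (n + mc) (n + mc) le_rfl, Nat.sub_self]
    rfl
  · intro i hi
    have h1 : c = (nx w)^[n + mc] x2 := by
      rw [← hmc1, hz2, ← Function.iterate_add_apply, add_comm n mc]
    rw [h1, pv_iter_nx w x2 (n + mc) i (by omega)]
    have h2 : plab ((nx w)^[n + mc - i] x2) = lab ((nx w)^[n + mc - i - 1] x2) := by
      rw [← plab_nx w, ← Function.iterate_succ_apply' (nx w)]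
      congr 2
      omega
    rw [h2]
    by_cases h3 : n + mc - i - 1 < n
    · exact (mem_sdiff.1 (hn2 _ h3)).1
    · have h4 : (nx w)^[n + mc - i - 1] x2 = (nx w)^[n + mc - i - 1 - n] z2 := by
        rw [hz2, ← Function.iterate_add_apply, show n + mc - i - 1 - n + n = n + mc - i - 1 by omega]
      rw [h4]
      exact hBQ (hmc2 _ (by omega))

end Pool.Agent.H93.ZF
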